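import Pool.Agent.U226.FX.Ker
import Pool.Agent.U226.KP.Law

/-!
# The radicals of height pairings on `B ⊗ T ^ n`
-/

set_option autoImplicit false
set_option linter.unusedSectionVars false

open CategoryTheory Limits MonoidalCategory Module Filter Topology
open Pool.Agent.Y112.SR Pool.Agent.Y112.KD Pool.Agent.N64.AF Pool.Agent.U226.FX
open scoped ENNReal

namespace Pool.Agent.U226.HT

universe v u w

section Defs

variable {C : Type u} [Category.{v} C] [Preadditive C] [MonoidalCategory C]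
  [MonoidalPreadditive C] [SymmetricCategory C] [RightRigidCategory C]
  [Linear ℚ C] [MonoidalLinear ℚ C] {K : Type w} [Field K]

/-- A height pairing: a real number `ht Y x y` for homologically trivial morphisms `x` from the
unit to `Y` and `y` from `Y` to the unit, linear in `x`, and adjoint for morphisms `Y ⟶ Z`. -/
structure HeightPairing (R : SuperRealisation C K) where
  ht : ∀ Y : C, (𝟙_ C ⟶ Y) → (Y ⟶ 𝟙_ C) → ℝ
  zero : ∀ {Y : C} (y : Y ⟶ 𝟙_ C), R.H.map y = 0 → ht Y 0 y = 0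
  add : ∀ {Y : C} (x x' : 𝟙_ C ⟶ Y) (y : Y ⟶ 𝟙_ C), R.H.map x = 0 → R.H.map x' = 0 →
    R.H.map y = 0 → ht Y (x + x') y = ht Y x y + ht Y x' y
  smul : ∀ {Y : C} (q : ℚ) (x : 𝟙_ C ⟶ Y) (y : Y ⟶ 𝟙_ C), R.H.map x = 0 → R.H.map y = 0 →
    ht Y (q • x) y = q * ht Y x y
  adj : ∀ {Y Z : C} (x : 𝟙_ C ⟶ Y) (f : Y ⟶ Z) (z : Z ⟶ 𝟙_ C), R.H.map x = 0 → R.H.map z = 0 →
    ht Z (x ≫ f) z = ht Y x (f ≫ z)

end Defs

variable {C : Type u} [Category.{v} C] [Preadditive C] [MonoidalCategory C]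
  [MonoidalPreadditive C] [SymmetricCategory C] [RightRigidCategory C]
  [Linear ℚ C] [MonoidalLinear ℚ C]
  {K : Type w} [Field K] [IsAlgClosed K] [Algebra ℚ K] {R : SuperRealisation C K}

/-- The homologically trivial classes on `Y`. -/
def homClasses (hR : IsReal ℚ R) (Y : C) : Submodule ℚ (𝟙_ C ⟶ Y) where
  carrier := {x | R.H.map x = 0}
  zero_mem' := R.H.map_zero _ _
  add_mem' := fun {a b} ha hb => by
    change R.H.map (a + b) = 0
    rw [R.H.map_add, show R.H.map a = 0 from ha, show R.H.map b = 0 from hb, add_zero]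
  smul_mem' := fun q a ha => by
    change R.H.map (q • a) = 0
    rw [hR.lin, show R.H.map a = 0 from ha, smul_zero]

/-- The radical of the height pairing on the homologically trivial classes on `Y`. -/
def radical (hR : IsReal ℚ R) (P : HeightPairing R) (Y : C) : Submodule ℚ (𝟙_ C ⟶ Y) where
  carrier := {x | R.H.map x = 0 ∧ ∀ y : Y ⟶ 𝟙_ C, R.H.map y = 0 → P.ht Y x y = 0}
  zero_mem' := ⟨R.H.map_zero _ _, fun y hy => P.zero y hy⟩
  add_mem' := fun {a b} ha hb => ⟨(homClasses hR Y).add_mem ha.1 hb.1, fun y hy => by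
    rw [P.add a b y ha.1 hb.1 hy, ha.2 y hy, hb.2 y hy, add_zero]⟩
  smul_mem' := fun q a ha => ⟨(homClasses hR Y).smul_mem q ha.1, fun y hy => by
    rw [P.smul q a y ha.1 hy, ha.2 y hy, mul_zero]⟩

/-- The pairing on `Y` is nondegenerate (on the left). -/
def Nondeg (P : HeightPairing R) (Y : C) : Prop :=
  ∀ x : 𝟙_ C ⟶ Y, R.H.map x = 0 → (∀ y : Y ⟶ 𝟙_ C, R.H.map y = 0 → P.ht Y x y = 0) → x = 0

/-- The dimension of the radical on `B ⊗ T ^ n`. -/
noncomputable def radDim (hR : IsReal ℚ R) (P : HeightPairing R) (B T : C) (n : ℕ) : ℕ∞ :=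
  dimE ℚ (radical hR P (B ⊗ tp T n))

/-- The rank of the pairing on `B ⊗ T ^ n`: the dimension of the homologically trivial classes
modulo the radical. -/
noncomputable def htRank (hR : IsReal ℚ R) (P : HeightPairing R) (B T : C) (n : ℕ) : ℕ∞ :=
  Pool.Agent.U226.KP.quotDim (homClasses hR (B ⊗ tp T n)) (radical hR P (B ⊗ tp T n))

/-- The pairing on `Y` vanishes. -/
def PairZero (P : HeightPairing R) (Y : C) : Prop :=
  ∀ x : 𝟙_ C ⟶ Y, R.H.map x = 0 → ∀ y : Y ⟶ 𝟙_ C, R.H.map y = 0 → P.ht Y x y = 0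

/-- The bounds below for the sequence `a` with the threshold for `m`. -/
def Large (R : SuperRealisation C K) (T : C) (a : ℕ → ℕ∞) (m : ℕ) : Prop :=
  ∀ n : ℕ, 128 * (m + 1) ^ 2 * bt R T ^ (2 * m + 6) ≤ n →
    (numRank ℚ (tp T n) : ℕ∞) ≤ 2 * a n ∧
    ((bt R T ^ (2 * n) : ℕ) : ℕ∞) ≤ (2 * (n + 1) ^ (bt R T ^ 2) : ℕ) * a (n + n)

lemma homClasses_stable (hR : IsReal ℚ R) : Stable (fun Y : C => homClasses hR Y) := by
  intro Y Z f a ha
  change R.H.map (a ≫ f) = 0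
  rw [R.H.map_comp, show R.H.map a = 0 from ha, zero_comp]

lemma radical_stable (hR : IsReal ℚ R) (P : HeightPairing R) :
    Stable (fun Y : C => radical hR P Y) := by
  intro Y Z f a ha
  refine ⟨homClasses_stable hR f a ha.1, fun z hz => ?_⟩
  rw [P.adj a f z ha.1 hz]
  refine ha.2 _ ?_
  rw [R.H.map_comp, hz, comp_zero]

lemma dimRel_radical (hR : IsReal ℚ R) (P : HeightPairing R) (B T : C) :
    dimRel (fun Y : C => (⊥ : Submodule ℚ (𝟙_ C ⟶ Y))) (fun Y : C => radical hR P Y) B T =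
      radDim hR P B T := by
  funext n
  exact dimE_bot_rel _

/-- **The law for the radicals of height pairings.** -/
theorem height_law {T : C} [ExactPairing T T] (h : IsPow ℚ R T) (P : HeightPairing R) (B : C) :
    ∃ N M : ℕ∞, RatioTo ℚ T (radDim h.real P B T) N ∧ RatioTo ℚ T (htRank h.real P B T) M ∧
      (N = 0 ↔ ∀ n : ℕ, Nondeg P (B ⊗ tp T n)) ∧ (M = 0 ↔ ∀ n : ℕ, PairZero P (B ⊗ tp T n)) ∧
      (∀ m : ℕ, ¬ Nondeg P (B ⊗ tp T m) → Large R T (radDim h.real P B T) m) ∧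
      (∀ m : ℕ, ¬ PairZero P (B ⊗ tp T m) → Large R T (htRank h.real P B T) m) := by
  obtain ⟨N, h1, h2, h3, -⟩ := fix_law h bot_stable (radical_stable h.real P) B
  obtain ⟨M, k1, k2, k3, -⟩ := fix_law h (radical_stable h.real P) (homClasses_stable h.real) B
  rw [dimRel_radical] at h1 h3
  have e1 : ∀ n : ℕ, radical h.real P (B ⊗ tp T n) ≤ (⊥ : Submodule ℚ (𝟙_ C ⟶ B ⊗ tp T n)) ↔
      Nondeg P (B ⊗ tp T n) := fun n =>
    ⟨fun hle x hx hy => (Submodule.mem_bot ℚ).1 (hle ⟨hx, hy⟩),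
      fun hn x hx => (Submodule.mem_bot ℚ).2 (hn x hx.1 hx.2)⟩
  have e2 : ∀ n : ℕ, homClasses h.real (B ⊗ tp T n) ≤ radical h.real P (B ⊗ tp T n) ↔
      PairZero P (B ⊗ tp T n) := fun n =>
    ⟨fun hle x hx => (hle (show x ∈ homClasses h.real (B ⊗ tp T n) from hx)).2,
      fun hz x hx => ⟨hx, hz x hx⟩⟩
  have l1 : ∀ m n : ℕ, ¬ Nondeg P (B ⊗ tp T m) → 128 * (m + 1) ^ 2 * bt R T ^ (2 * m + 6) ≤ n →
      (numRank ℚ (tp T n) : ℕ∞) ≤ 2 * radDim h.real P B T n := by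
    intro m n hm hn
    by_contra hcon
    rw [not_le] at hcon
    exact hm ((e1 m).1 (h3 m n hn hcon))
  have l2 : ∀ m n : ℕ, ¬ PairZero P (B ⊗ tp T m) → 128 * (m + 1) ^ 2 * bt R T ^ (2 * m + 6) ≤ n →
      (numRank ℚ (tp T n) : ℕ∞) ≤ 2 * htRank h.real P B T n := by
    intro m n hm hn
    by_contra hcon
    rw [not_le] at hcon
    exact hm ((e2 m).1 (k3 m n hn hcon))
  refine ⟨N, M, h1, k1, h2.trans (forall_congr' e1), k2.trans (forall_congr' e2), ?_, ?_⟩
  · intro m hm n hn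
    exact ⟨l1 m n hm hn, growth_of h (l1 m (n + n) hm (hn.trans (Nat.le_add_left n n)))⟩
  · intro m hm n hn
    exact ⟨l2 m n hm hn, growth_of h (l2 m (n + n) hm (hn.trans (Nat.le_add_left n n)))⟩

end Pool.Agent.U226.HT
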